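import Pool.Agent.Helper69.Cup.Basic
import Pool.Agent.Helper69.Cup.Exists

set_option autoImplicit false

namespace Pool.Agent.Results.MP_ab534e_nt.OneRadicalClass

/-- The sequence exists, so the theorem below is not vacuous. -/
theorem exists_sequence : ∃ a : ℕ → ℕ, Pool.Agent.Helper69.Cup.IsCup a :=
  ⟨_, Pool.Agent.Helper69.Cup.isCup_cup⟩

theorem result (a : ℕ → ℕ) (h1 : a 1 = 1) (h2 : a 2 = 2)
    (hrec : ∀ n, 3 ≤ n →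
      IsLeast {m : ℕ | 0 < m ∧ (∀ i, 1 ≤ i → i < n → a i ≠ m) ∧
        (∀ p, p.Prime → p ∣ a (n - 1) → ¬ p ∣ a (n - 2) → p ∣ m) ∧
        (∀ p, p.Prime → p ∣ a (n - 1) → p ∣ a (n - 2) → ¬ p ∣ m)} (a n)) :
    (∀ m, 0 < m → ∃ n, 1 ≤ n ∧ a n = m) ∨
    ∃ K : Finset ℕ, K.Nonempty ∧ (∀ p ∈ K, p.Prime ∧ p ≠ 2) ∧
      (∀ m, 0 < m → m.primeFactors ≠ K → ∃ n, 1 ≤ n ∧ a n = m) ∧
      {n | 1 ≤ n ∧ (a n).primeFactors = K}.Finite :=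
  Pool.Agent.Helper69.Cup.IsCup.structure ⟨h1, h2, hrec⟩

end Pool.Agent.Results.MP_ab534e_nt.OneRadicalClass
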